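import Pool.Agent.Results.MP_488d72_lc.RankEquivalence
import Pool.Agent.Y534.ID.Param
import Pool.Agent.Y534.ID.Ccc

/-!
# A thin idealistic equivalence relation with `ℵ₁` classes, all but one of them Borel

The relation is the one of `RankEquivalence`: two trees on the natural numbers are equivalent if
both are ill-founded or both are well-founded with the same rank. It is an analytic equivalence
relation on a compact Polish space, and it is idealistic in a strong sense, with parameters from
arbitrary Polish spaces. The class of the ill-founded trees is not Borel and is the only one with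
this property; there are exactly `ℵ₁` classes; the identity of the Cantor space is not Borel
reducible to it; it is not idealistic with ccc ideals; and it is not Borel reducible to any
equivalence relation all of whose classes are Borel.
-/

set_option autoImplicit false

open MeasureTheory Set
open scoped Ordinal Cardinal

namespace Pool.Agent.Results.MP_488d72_lc.ThinClasswiseBorel

open Pool.Agent.Results.MP_488d72_lc.RankEquivalence

universe u v w z

/-- `E` is idealistic with parameters: one can assign to every class `C` a sigma-ideal `I C` of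
subsets of `C`, with `C ∉ I C`, such that for every Polish space `P`, every Borel map `f : P → X`
and every Borel set `A ⊆ P × X` the set of all `p` such that `{y ∈ [f p] : (p, y) ∈ A}` belongs to
`I [f p]` is Borel. For `P = X` and `f` the identity this is the condition in `Idealistic`. -/
def StronglyIdealistic {X : Type u} [TopologicalSpace X] (E : Setoid X) : Prop :=
  ∃ I : Set X → Set (Set X), (∀ x : X, IsProperSigmaIdeal {y | E x y} (I {y | E x y})) ∧
    ∀ (P : Type v) [TopologicalSpace P] [PolishSpace P] (f : P → X),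
      @Measurable P X (borel P) (borel X) f →
      ∀ A : Set (P × X), @MeasurableSet (P × X) (borel (P × X)) A →
        @MeasurableSet P (borel P) {p | {y | E (f p) y ∧ (p, y) ∈ A} ∈ I {y | E (f p) y}}

/-- `E` is idealistic with ccc ideals: the ideals in the definition of an idealistic relation can be
chosen such that, for every class `C`, every family of pairwise disjoint Borel sets whose
intersections with `C` are not in `I C` is countable. -/
def CccIdealistic {X : Type u} [TopologicalSpace X] (E : Setoid X) : Prop :=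
  ∃ I : Set X → Set (Set X), (∀ x : X, IsProperSigmaIdeal {y | E x y} (I {y | E x y})) ∧
    (∀ A : Set (X × X), @MeasurableSet (X × X) (borel (X × X)) A →
      @MeasurableSet X (borel X) {x | {y | E x y ∧ (x, y) ∈ A} ∈ I {y | E x y}}) ∧
    ∀ (x : X) (T : Set (Set X)),
      (∀ B ∈ T, @MeasurableSet X (borel X) B ∧ {y | E x y ∧ y ∈ B} ∉ I {y | E x y}) →
      T.PairwiseDisjoint id → T.Countable

/-- All classes of `F` are Borel. -/
def BorelClasses {Y : Type v} [TopologicalSpace Y] (F : Setoid Y) : Prop :=
  ∀ y : Y, @MeasurableSet Y (borel Y) {z | F y z}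

theorem not_reducible {Y : Type v} [TopologicalSpace Y] (F : Setoid Y) (hF : BorelClasses F) :
    ¬ BorelReducible Pool.Agent.W921.Idl.E F := by
  rintro ⟨f, hf, hred⟩
  obtain ⟨x, hx⟩ := Pool.Agent.W921.Idl.ill_nonempty
  have h2 : @MeasurableSet _ (borel Pool.Agent.W921.Idl.X) (f ⁻¹' {z | F (f x) z}) := hf (hF (f x))
  rw [← BorelSpace.measurable_eq] at h2
  refine Pool.Agent.W921.Idl.ill_not_measurable ?_
  convert h2 using 1
  ext y
  rw [← Pool.Agent.W921.Idl.E_ill hx y, hred x y, Set.mem_preimage]
  rfl

theorem borelClasses_orbitRel (G : Type v) [Group G] [TopologicalSpace G] [IsTopologicalGroup G]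
    [PolishSpace G] (Y : Type w) [TopologicalSpace Y] [PolishSpace Y] [MulAction G Y]
    [ContinuousSMul G Y] : BorelClasses (MulAction.orbitRel G Y) := by
  intro y
  have h1 := Pool.Agent.W921.Sel.measurableSet_orbit G Y y
  convert h1 using 1
  ext z
  constructor
  · intro h
    exact (MulAction.orbitRel G Y).symm h
  · intro h
    exact (MulAction.orbitRel G Y).symm h

/-- The rank of a well-founded tree, as an option. -/
noncomputable def rk (x : Pool.Agent.W921.Idl.X) : Option (Set.Iio (ω₁ : Ordinal.{0})) := by
  classical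
  exact if h : Acc (Pool.Agent.W921.Idl.R x) 0 then
    some ⟨h.rank, Pool.Agent.W921.Idl.rank_lt_omega_one h⟩ else none

theorem rk_cls {x : Pool.Agent.W921.Idl.X} {α : Ordinal.{0}} (hx : x ∈ Pool.Agent.W921.Idl.Cls α)
    (hα : α < ω₁) : rk x = some ⟨α, hα⟩ := by
  obtain ⟨h, rfl⟩ := hx
  unfold rk
  rw [dif_pos h]

theorem rk_ill {x : Pool.Agent.W921.Idl.X} (hx : x ∈ Pool.Agent.W921.Idl.Ill) : rk x = none := by
  unfold rk
  exact dif_neg hx

theorem rk_eq_iff {x y : Pool.Agent.W921.Idl.X} :
    rk x = rk y ↔ Pool.Agent.W921.Idl.E x y := by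
  rcases Pool.Agent.W921.Idl.mem_ill_or x with hx | ⟨α, hx⟩
  · rw [Pool.Agent.W921.Idl.E_ill hx, rk_ill hx]
    rcases Pool.Agent.W921.Idl.mem_ill_or y with hy | ⟨β, hy⟩
    · simp [rk_ill hy, hy]
    · rw [rk_cls hy (Pool.Agent.W921.Idl.cls_lt hy)]
      simp [Pool.Agent.W921.Idl.not_ill_of_cls hy]
  · rw [Pool.Agent.W921.Idl.E_cls hx, rk_cls hx (Pool.Agent.W921.Idl.cls_lt hx)]
    rcases Pool.Agent.W921.Idl.mem_ill_or y with hy | ⟨β, hy⟩
    · rw [rk_ill hy]
      simp only [reduceCtorEq, false_iff]
      exact fun h => Pool.Agent.W921.Idl.not_ill_of_cls h hy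
    · rw [rk_cls hy (Pool.Agent.W921.Idl.cls_lt hy)]
      rw [Option.some_inj]
      constructor
      · intro h
        have h' : α = β := congrArg Subtype.val h
        exact h' ▸ hy
      · intro h
        exact Subtype.ext (Pool.Agent.W921.Idl.cls_unique h hy)

theorem mk_Iio_omega_one : #(Set.Iio (ω₁ : Ordinal.{0})) = ℵ₁ := by
  rw [Cardinal.mk_Iio_ordinal]
  simp

theorem mk_quotient : #(Quotient Pool.Agent.W921.Idl.E) = ℵ₁ := by
  apply le_antisymm
  · have h := Cardinal.lift_mk_le_lift_mk_of_injective
      (f := fun q : Quotient Pool.Agent.W921.Idl.E =>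
        Quotient.lift rk (fun a b hab => rk_eq_iff.2 hab) q) (by
        intro p q
        induction p using Quotient.inductionOn with
        | h a =>
          induction q using Quotient.inductionOn with
          | h b =>
            intro h
            exact Quotient.sound (rk_eq_iff.1 h))
    rw [Cardinal.mk_option, mk_Iio_omega_one] at h
    simpa using h
  · have h := Cardinal.lift_mk_le_lift_mk_of_injective
      (f := fun α : Set.Iio (ω₁ : Ordinal.{0}) =>
        (Quotient.mk Pool.Agent.W921.Idl.E (Pool.Agent.W921.Idl.cls_nonempty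
          (α := Order.succ α.1) ((zero_le (a := α.1)).trans_lt (Order.lt_succ α.1))
          (Pool.Agent.W921.Idl.succ_lt_omega_one α.2)).some)) (by
        intro α β h
        have h1 := Quotient.exact h
        have hα := (Pool.Agent.W921.Idl.cls_nonempty
          (α := Order.succ α.1) ((zero_le (a := α.1)).trans_lt (Order.lt_succ α.1))
          (Pool.Agent.W921.Idl.succ_lt_omega_one α.2)).some_mem
        have hβ := (Pool.Agent.W921.Idl.cls_nonempty
          (α := Order.succ β.1) ((zero_le (a := β.1)).trans_lt (Order.lt_succ β.1))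
          (Pool.Agent.W921.Idl.succ_lt_omega_one β.2)).some_mem
        have h2 := (Pool.Agent.W921.Idl.E_cls hα _).1 h1
        have h3 := Pool.Agent.W921.Idl.cls_unique h2 hβ
        exact Subtype.ext (Order.succ_injective h3))
    rw [mk_Iio_omega_one] at h
    simpa using h

theorem not_cantor_reducible :
    ¬ BorelReducible (⊥ : Setoid (ℕ → Bool)) Pool.Agent.W921.Idl.E := by
  rintro ⟨f, hf, hred⟩
  have hfm : Measurable f := by
    rw [← BorelSpace.measurable_eq, ← BorelSpace.measurable_eq] at hf
    exact hf
  have hinj : ∀ a b, Pool.Agent.W921.Idl.E (f a) (f b) → a = b := fun a b h => (hred a b).2 h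
  have hfinj : Function.Injective f := fun a b h => hinj a b (h ▸ Pool.Agent.W921.Idl.E.refl (f a))
  -- the points whose image is well-founded
  have hsub : (f ⁻¹' Pool.Agent.W921.Idl.Ill).Subsingleton := by
    intro a ha b hb
    exact hinj a b ((Pool.Agent.W921.Idl.E_ill ha _).2 hb)
  have hD : MeasurableSet (f ⁻¹' Pool.Agent.W921.Idl.Ill)ᶜ := hsub.measurableSet.compl
  have hB : MeasurableSet (f '' (f ⁻¹' Pool.Agent.W921.Idl.Ill)ᶜ) :=
    hD.image_of_measurable_injOn hfm hfinj.injOn
  obtain ⟨ρ, hρ, hb⟩ := Pool.Agent.W921.Idl.bounded_of_disjoint hB (by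
    rintro _ ⟨a, ha, rfl⟩
    exact ha)
  have hcount : ((f ⁻¹' Pool.Agent.W921.Idl.Ill)ᶜ).Countable := by
    have h1 : ∀ a ∈ (f ⁻¹' Pool.Agent.W921.Idl.Ill)ᶜ,
        ∃ α : Ordinal.{0}, α ≤ ρ ∧ f a ∈ Pool.Agent.W921.Idl.Cls α := by
      intro a ha
      rcases Pool.Agent.W921.Idl.mem_ill_or (f a) with h | ⟨α, h⟩
      · exact absurd h ha
      · refine ⟨α, ?_, h⟩
        by_contra hlt
        exact hb α (not_le.1 hlt) _ h ⟨a, ha, rfl⟩
    choose! g hg1 hg2 using h1
    refine Set.MapsTo.countable_of_injOn (f := g) (t := Set.Iic ρ) ?_ ?_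
      (Pool.Agent.W921.Idl.countable_Iic hρ)
    · exact fun a ha => hg1 a ha
    · intro a ha b hb' hab
      have h2 := hg2 a ha
      have h3 := hg2 b hb'
      rw [← hab] at h3
      exact hinj a b ((Pool.Agent.W921.Idl.E_cls h2 _).2 h3)
  have huniv : (Set.univ : Set (ℕ → Bool)).Countable := by
    rw [← Set.compl_union_self (f ⁻¹' Pool.Agent.W921.Idl.Ill)]
    exact hcount.union hsub.countable
  have : Cardinal.mk (ℕ → Bool) ≤ ℵ₀ := Cardinal.mk_le_aleph0_iff.2 (Set.countable_univ_iff.1 huniv)
  rw [Cardinal.mk_arrow] at this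
  simp only [Cardinal.mk_bool, Cardinal.mk_nat, Cardinal.lift_ofNat, Cardinal.lift_aleph0] at this
  exact absurd this (not_le.2 (Cardinal.cantor ℵ₀))

theorem idealistic_of_strongly {X : Type u} [TopologicalSpace X] [PolishSpace X] {E : Setoid X}
    (h : StronglyIdealistic.{u, u} E) : Idealistic E := by
  obtain ⟨I, h1, h2⟩ := h
  exact ⟨I, h1, fun A hA => h2 X id (@measurable_id X (borel X)) A hA⟩

theorem stronglyIdealistic_E : StronglyIdealistic.{0, v} Pool.Agent.W921.Idl.E := by
  refine ⟨Pool.Agent.W921.Idl.I, fun x => Pool.Agent.W921.Idl.I_ideal x, ?_⟩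
  intro P _ _ f hf A hA
  let mP : MeasurableSpace P := borel P
  have hP : BorelSpace P := ⟨rfl⟩
  have hf' : Measurable f := by
    have hX : (inferInstance : MeasurableSpace Pool.Agent.W921.Idl.X) =
        borel Pool.Agent.W921.Idl.X := BorelSpace.measurable_eq
    rw [← hX] at hf
    exact hf
  have hA' : MeasurableSet A := by
    rw [← BorelSpace.measurable_eq] at hA
    exact hA
  exact Pool.Agent.Y534.ID.measurable_param hf' hA'

theorem not_cccIdealistic_E : ¬ CccIdealistic Pool.Agent.W921.Idl.E := by
  rintro ⟨I, h1, h2, h3⟩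
  have hX : (inferInstance : MeasurableSpace Pool.Agent.W921.Idl.X) =
      borel Pool.Agent.W921.Idl.X := BorelSpace.measurable_eq
  obtain ⟨x, T, hT, hdis, hunc⟩ := Pool.Agent.Y534.ID.not_ccc I (fun x => (h1 x).2.1)
    (fun x => (h1 x).2.2.2.1) (fun x => (h1 x).2.2.2.2) (by
      intro A hA
      rw [BorelSpace.measurable_eq (α := Pool.Agent.W921.Idl.X × Pool.Agent.W921.Idl.X)] at hA
      have := h2 A hA
      rw [← hX] at this
      exact this)
  refine hunc (h3 x T ?_ hdis)
  intro B hB
  rw [← hX]
  exact hT B hB

/-- There is an analytic equivalence relation `E` on a compact Polish space, idealistic in the strong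
sense with parameters from Polish spaces but not with ccc ideals, with exactly `ℵ₁` classes, exactly
one of them non-Borel, such that the identity relation of the Cantor space is
not Borel reducible to `E` and `E` is not Borel reducible to any equivalence relation (on any
topological space) all of whose classes are Borel. In particular `E` is not Borel reducible (so not
Borel bireducible) to the orbit equivalence relation of any continuous action of a Polish group on a
Polish space. -/
theorem result :
    ∃ (X : Type) (_ : TopologicalSpace X) (_ : PolishSpace X) (_ : CompactSpace X) (E : Setoid X),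
      AnalyticSet {p : X × X | E p.1 p.2} ∧ Idealistic E ∧ StronglyIdealistic.{0, z} E ∧
      ¬ CccIdealistic E ∧ #(Quotient E) = ℵ₁ ∧
      ¬ BorelReducible (⊥ : Setoid (ℕ → Bool)) E ∧
      (∃ x₀ : X, ¬ @MeasurableSet X (borel X) {y | E x₀ y} ∧
        ∀ x : X, ¬ E x₀ x → @MeasurableSet X (borel X) {y | E x y}) ∧
      (∀ (Y : Type u) [TopologicalSpace Y] (F : Setoid Y), BorelClasses F →
        ¬ BorelReducible E F) ∧
      ∀ (G : Type v) [Group G] [TopologicalSpace G] [IsTopologicalGroup G] [PolishSpace G]
        (Y : Type w) [TopologicalSpace Y] [PolishSpace Y] [MulAction G Y] [ContinuousSMul G Y],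
        BorelClasses (MulAction.orbitRel G Y) ∧ ¬ BorelReducible E (MulAction.orbitRel G Y) := by
  refine ⟨Pool.Agent.W921.Idl.X, inferInstance, inferInstance, inferInstance,
    Pool.Agent.W921.Idl.E,
    Pool.Agent.W921.Idl.analyticSet_E, idealistic_of_strongly stronglyIdealistic_E,
    stronglyIdealistic_E, not_cccIdealistic_E, mk_quotient, not_cantor_reducible, ?_, ?_, ?_⟩
  · obtain ⟨x₀, hx₀⟩ := Pool.Agent.W921.Idl.ill_nonempty
    rw [← BorelSpace.measurable_eq]
    refine ⟨x₀, ?_, ?_⟩
    · rw [Pool.Agent.W921.Idl.setOf_E_ill hx₀]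
      exact Pool.Agent.W921.Idl.ill_not_measurable
    · intro x hx
      rcases Pool.Agent.W921.Idl.class_cases x with ⟨α, h0, h1, h2, h3⟩ | ⟨h1, h2⟩
      · rw [h3]
        exact Pool.Agent.W921.Idl.measurableSet_cls h1
      · exact absurd ((Pool.Agent.W921.Idl.E_ill hx₀ x).2 h1) hx
  · intro Y _ F hF
    exact not_reducible F hF
  · intro G _ _ _ _ Y _ _ _ _
    exact ⟨borelClasses_orbitRel G Y, not_reducible _ (borelClasses_orbitRel G Y)⟩

end Pool.Agent.Results.MP_488d72_lc.ThinClasswiseBorel
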